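import Pool.Agent.K3h16.MI.Stm

/-!
# Continuity of the kernels
-/

set_option autoImplicit false

open MeasureTheory Set Filter Topology
open scoped ContDiff

namespace Pool.Agent.K3h91.MI

open Pool.Agent.K3h16.MI

/-- a bounded function, continuous outside the zeros of `r`, times `|r|^s` -/
theorem contOn_mul {X : Type*} [TopologicalSpace X] {n : ℕ} (S : Set X) (K : X → ℝ) (r : X → E n)
    (s : ℝ) (hs : 0 < s) (C : ℝ) (hr : ContinuousOn r S) (hb : ∀ p ∈ S, |K p| ≤ C)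
    (hc : ∀ p ∈ S, r p ≠ 0 → ContinuousWithinAt K S p) :
    ContinuousOn (fun p => K p * ‖r p‖ ^ s) S := by
  intro p hp
  have hn : ContinuousWithinAt (fun q => ‖r q‖ ^ s) S p :=
    (hr p hp).norm.rpow_const (Or.inr hs.le)
  by_cases h0 : r p = 0
  · have h1 : K p * ‖r p‖ ^ s = 0 := by
      rw [h0, norm_zero, Real.zero_rpow hs.ne', mul_zero]
    show Tendsto (fun p => K p * ‖r p‖ ^ s) (𝓝[S] p) (𝓝 (K p * ‖r p‖ ^ s))
    rw [h1]
    have h2 : Tendsto (fun q => C * ‖r q‖ ^ s) (𝓝[S] p) (𝓝 0) := by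
      have h3 : Tendsto (fun q => C * ‖r q‖ ^ s) (𝓝[S] p) (𝓝 (C * ‖r p‖ ^ s)) :=
        continuousWithinAt_const.mul hn
      rwa [h0, norm_zero, Real.zero_rpow hs.ne', mul_zero] at h3
    refine squeeze_zero_norm' ?_ h2
    filter_upwards [self_mem_nhdsWithin] with q hq
    rw [norm_mul, Real.norm_eq_abs, Real.norm_eq_abs, abs_of_nonneg (Real.rpow_nonneg (norm_nonneg _) _)]
    exact mul_le_mul_of_nonneg_right (hb q hq) (Real.rpow_nonneg (norm_nonneg _) _)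
  · exact (hc p hp h0).mul hn

theorem entry_le {n : ℕ} (α : ℝ) (v w r : E n) :
    |inner ℝ v w + α * (inner ℝ v r * inner ℝ r w / ‖r‖ ^ 2)| ≤ ‖v‖ * ‖w‖ * (1 + |α|) := by
  have h1 : |inner ℝ v w| ≤ ‖v‖ * ‖w‖ := abs_real_inner_le_norm v w
  have h2 : |inner ℝ v r * inner ℝ r w / ‖r‖ ^ 2| ≤ ‖v‖ * ‖w‖ := by
    by_cases hr : r = 0
    · subst hr
      simp
      positivity
    · have h3 : 0 < ‖r‖ := norm_pos_iff.2 hr
      rw [abs_div, abs_mul, abs_of_nonneg (by positivity : (0 : ℝ) ≤ ‖r‖ ^ 2), div_le_iff₀ (by positivity)]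
      calc |inner ℝ v r| * |inner ℝ r w| ≤ (‖v‖ * ‖r‖) * (‖r‖ * ‖w‖) :=
            mul_le_mul (abs_real_inner_le_norm _ _) (abs_real_inner_le_norm _ _) (abs_nonneg _)
              (by positivity)
        _ = ‖v‖ * ‖w‖ * ‖r‖ ^ 2 := by ring
  calc |inner ℝ v w + α * (inner ℝ v r * inner ℝ r w / ‖r‖ ^ 2)|
      ≤ |inner ℝ v w| + |α| * |inner ℝ v r * inner ℝ r w / ‖r‖ ^ 2| := by
        refine (abs_add_le _ _).trans ?_
        rw [abs_mul α]
    _ ≤ ‖v‖ * ‖w‖ + |α| * (‖v‖ * ‖w‖) := add_le_add h1 (mul_le_mul_of_nonneg_left h2 (abs_nonneg _))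
    _ = ‖v‖ * ‖w‖ * (1 + |α|) := by ring

theorem kdet_le {m n : ℕ} (α B : ℝ) (v w : Fin m → E n) (r : E n) (hB : ∀ i j, ‖v i‖ * ‖w j‖ ≤ B) :
    |kdet α v w r| ≤ (Nat.factorial m : ℝ) * (B * (1 + |α|)) ^ m := by
  have h := Matrix.det_le (A := Matrix.of fun i j : Fin m =>
    inner ℝ (v i) (w j) + α * (inner ℝ (v i) r * inner ℝ r (w j) / ‖r‖ ^ 2))
    (abv := (AbsoluteValue.abs : AbsoluteValue ℝ ℝ)) (x := B * (1 + |α|)) (fun i j => by
      refine (entry_le α (v i) (w j) r).trans ?_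
      exact mul_le_mul_of_nonneg_right (hB i j) (by positivity))
  rw [Fintype.card_fin, nsmul_eq_mul] at h
  exact h

/-- continuity in a chart -/
theorem cwa {X Y : Type*} [TopologicalSpace X] [TopologicalSpace Y] {S V : Set Y} {f : X → Y}
    (hf : Topology.IsEmbedding f) (hV : IsOpen V) (hr : Set.range f = S ∩ V) (K : Y → ℝ) (u : X)
    (h : ContinuousAt (fun v => K (f v)) u) : ContinuousWithinAt K S (f u) := by
  have hu : f u ∈ V := by
    have h1 : f u ∈ Set.range f := ⟨u, rfl⟩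
    rw [hr] at h1
    exact h1.2
  rw [← continuousWithinAt_inter (hV.mem_nhds hu), ← hr]
  unfold ContinuousWithinAt
  rw [← hf.map_nhds_eq, tendsto_map'_iff]
  exact h

theorem pd_cont {m n : ℕ} {γ : E m → E n} (h : ContDiff ℝ ∞ γ) (b : Fin m) :
    Continuous fun u => pd γ u b := by
  unfold pd
  exact (h.continuous_fderiv (by simp)).clm_apply continuous_const

theorem jac_cont {m n : ℕ} {γ : E m → E n} (h : ContDiff ℝ ∞ γ) : Continuous fun u => jac γ u := by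
  unfold jac pairing
  refine Continuous.sqrt (Continuous.matrix_det ?_)
  refine continuous_matrix fun i j => ?_
  exact (pd_cont h i).inner (pd_cont h j)

/-- continuity of `kdet` where `r ≠ 0` -/
theorem kdet_cont {X : Type*} [TopologicalSpace X] {m n : ℕ} (α : ℝ) (v w : X → Fin m → E n)
    (r : X → E n) (p : X) (hv : ∀ i, ContinuousAt (fun q => v q i) p)
    (hw : ∀ i, ContinuousAt (fun q => w q i) p) (hr : ContinuousAt r p) (h0 : r p ≠ 0) :
    ContinuousAt (fun q => kdet α (v q) (w q) (r q)) p := by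
  unfold kdet
  have hA : ContinuousAt (fun q => (Matrix.of fun i j : Fin m =>
      inner ℝ (v q i) (w q j) + α * (inner ℝ (v q i) (r q) * inner ℝ (r q) (w q j) / ‖r q‖ ^ 2) :
      Matrix (Fin m) (Fin m) ℝ)) p := by
    refine continuousAt_pi.2 fun i => continuousAt_pi.2 fun j => ?_
    show ContinuousAt (fun q => inner ℝ (v q i) (w q j) +
      α * (inner ℝ (v q i) (r q) * inner ℝ (r q) (w q j) / ‖r q‖ ^ 2)) p
    refine ((hv i).inner (hw j)).add (continuousAt_const.mul ?_)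
    refine (((hv i).inner hr).mul (hr.inner (hw j))).div (hr.norm.pow 2) ?_
    exact pow_ne_zero 2 (norm_ne_zero_iff.2 h0)
  exact (Continuous.matrix_det continuous_id).continuousAt.comp hA

theorem t_CONT : S_KD → S_CONT := by
  intro hKD m n M e v hM α s hs
  refine contOn_mul (M ×ˢ M) (fun p => kdet α (e p.1) (e p.2) (p.1 - p.2)) (fun p => p.1 - p.2) s hs
    ((Nat.factorial m : ℝ) * (1 * (1 + |α|)) ^ m) (continuous_fst.sub continuous_snd).continuousOn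
    ?_ ?_
  · rintro ⟨x, y⟩ ⟨hx, hy⟩
    refine kdet_le α 1 _ _ _ fun i j => ?_
    rw [(hM.orthonormal x hx).1 i, (hM.orthonormal y hy).1 j, one_mul]
  · rintro ⟨x, y⟩ ⟨hx, hy⟩ hxy
    obtain ⟨γ₁, hγ₁, ⟨u₁, rfl⟩, ho₁⟩ := hM.charts x hx
    obtain ⟨γ₂, hγ₂, ⟨u₂, rfl⟩, ho₂⟩ := hM.charts y hy
    obtain ⟨V₁, hV₁, hr₁⟩ := hγ₁.open_range
    obtain ⟨V₂, hV₂, hr₂⟩ := hγ₂.open_range
    have hmem₁ : ∀ u, γ₁ u ∈ M := fun u => by
      have h1 : γ₁ u ∈ Set.range γ₁ := ⟨u, rfl⟩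
      rw [hr₁] at h1
      exact h1.1
    have hmem₂ : ∀ u, γ₂ u ∈ M := fun u => by
      have h1 : γ₂ u ∈ Set.range γ₂ := ⟨u, rfl⟩
      rw [hr₂] at h1
      exact h1.1
    have key := cwa (hγ₁.embedding.prodMap hγ₂.embedding) (hV₁.prod hV₂)
      (S := M ×ˢ M) (by rw [Set.range_prodMap, hr₁, hr₂, Set.prod_inter_prod])
      (fun p : E n × E n => kdet α (e p.1) (e p.2) (p.1 - p.2)) (u₁, u₂) ?_
    · exact key
    · have hG : (fun q : E m × E m => kdet α (e (Prod.map γ₁ γ₂ q).1) (e (Prod.map γ₁ γ₂ q).2)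
          ((Prod.map γ₁ γ₂ q).1 - (Prod.map γ₁ γ₂ q).2)) = fun q : E m × E m =>
          kdet α (pd γ₁ q.1) (pd γ₂ q.2) (γ₁ q.1 - γ₂ q.2) / (jac γ₁ q.1 * jac γ₂ q.2) := by
        funext q
        obtain ⟨h1, h2⟩ := hKD m n (e (γ₁ q.1)) (e (γ₂ q.2)) (pd γ₁ q.1) (pd γ₂ q.2)
          (hM.orthonormal _ (hmem₁ _)) (hM.orthonormal _ (hmem₂ _)) (ho₁ _) (ho₂ _)
        obtain ⟨h3, -⟩ := hKD m n (e (γ₂ q.2)) (e (γ₂ q.2)) (pd γ₂ q.2) (pd γ₂ q.2)
          (hM.orthonormal _ (hmem₂ _)) (hM.orthonormal _ (hmem₂ _)) (ho₂ _) (ho₂ _)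
        rw [h2 α (γ₁ q.1 - γ₂ q.2)]
        show kdet α (e (γ₁ q.1)) (e (γ₂ q.2)) (γ₁ q.1 - γ₂ q.2) = _
        unfold jac
        field_simp
      show ContinuousAt (fun q : E m × E m => kdet α (e (Prod.map γ₁ γ₂ q).1)
        (e (Prod.map γ₁ γ₂ q).2) ((Prod.map γ₁ γ₂ q).1 - (Prod.map γ₁ γ₂ q).2)) (u₁, u₂)
      rw [hG]
      have hj₁ : 0 < jac γ₁ u₁ := (hKD m n (e (γ₁ u₁)) (e (γ₁ u₁)) (pd γ₁ u₁) (pd γ₁ u₁)
        (hM.orthonormal _ (hmem₁ _)) (hM.orthonormal _ (hmem₁ _)) (ho₁ _) (ho₁ _)).1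
      have hj₂ : 0 < jac γ₂ u₂ := (hKD m n (e (γ₂ u₂)) (e (γ₂ u₂)) (pd γ₂ u₂) (pd γ₂ u₂)
        (hM.orthonormal _ (hmem₂ _)) (hM.orthonormal _ (hmem₂ _)) (ho₂ _) (ho₂ _)).1
      refine ContinuousAt.div ?_ ?_ (mul_pos hj₁ hj₂).ne'
      · refine kdet_cont α (fun q : E m × E m => pd γ₁ q.1) (fun q => pd γ₂ q.2)
          (fun q => γ₁ q.1 - γ₂ q.2) (u₁, u₂) (fun i => ?_) (fun i => ?_) ?_ hxy
        · exact ((pd_cont hγ₁.smooth i).comp continuous_fst).continuousAt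
        · exact ((pd_cont hγ₂.smooth i).comp continuous_snd).continuousAt
        · exact ((hγ₁.smooth.continuous.comp continuous_fst).sub
            (hγ₂.smooth.continuous.comp continuous_snd)).continuousAt
      · exact (((jac_cont hγ₁.smooth).comp continuous_fst).mul
          ((jac_cont hγ₂.smooth).comp continuous_snd)).continuousAt

theorem t_CONT1 : S_KD1 → S_CONT1 := by
  intro hKD m n M e v hM α s x w hs
  refine contOn_mul M (fun y => kdet α w (e y) (x - y)) (fun y => x - y) s hs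
    ((Nat.factorial m : ℝ) * ((∑ i, ‖w i‖) * (1 + |α|)) ^ m)
    (continuous_const.sub continuous_id).continuousOn ?_ ?_
  · intro y hy
    refine kdet_le α _ _ _ _ fun i j => ?_
    rw [(hM.orthonormal y hy).1 j, mul_one]
    exact Finset.single_le_sum (f := fun i => ‖w i‖) (fun i _ => norm_nonneg _) (Finset.mem_univ i)
  · intro y hy hxy
    obtain ⟨γ, hγ, ⟨u, rfl⟩, ho⟩ := hM.charts y hy
    obtain ⟨V, hV, hr⟩ := hγ.open_range
    have hmem : ∀ u, γ u ∈ M := fun u => by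
      have h1 : γ u ∈ Set.range γ := ⟨u, rfl⟩
      rw [hr] at h1
      exact h1.1
    refine cwa hγ.embedding hV hr (fun y => kdet α w (e y) (x - y)) u ?_
    have hG : (fun q : E m => kdet α w (e (γ q)) (x - γ q)) = fun q : E m =>
        kdet α w (pd γ q) (x - γ q) / jac γ q := by
      funext q
      obtain ⟨h1, h2, -⟩ := hKD m n (e (γ q)) (pd γ q) (hM.orthonormal _ (hmem _)) (ho _)
      rw [h2 w α (x - γ q)]
      unfold jac
      field_simp
    rw [hG]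
    have hj : 0 < jac γ u := (hKD m n (e (γ u)) (pd γ u) (hM.orthonormal _ (hmem _)) (ho _)).1
    refine ContinuousAt.div ?_ (jac_cont hγ.smooth).continuousAt hj.ne'
    refine kdet_cont α (fun _ : E m => w) (fun q => pd γ q) (fun q => x - γ q) u
      (fun i => continuousAt_const) (fun i => (pd_cont hγ.smooth i).continuousAt) ?_ hxy
    exact (continuous_const.sub hγ.smooth.continuous).continuousAt

end Pool.Agent.K3h91.MI
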