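import Pool.Agent.K3h16.MI.Stm

/-!
# Moebius transformations are conformal
-/

set_option autoImplicit false

open MeasureTheory Set Filter Topology
open scoped ContDiff

namespace Pool.Agent.K3h91.MI

open Pool.Agent.K3h16.MI

/-- the inversion and the distances -/
theorem inv_norm {V : Type*} [NormedAddCommGroup V] [InnerProductSpace ℝ V] (α : ℝ) (X Y : V)
    (hX : X ≠ 0) (hY : Y ≠ 0) :
    ‖(α / ‖X‖ ^ 2) • X - (α / ‖Y‖ ^ 2) • Y‖ ^ 2 =
      (α / ‖X‖ ^ 2) * (α / ‖Y‖ ^ 2) * ‖X - Y‖ ^ 2 := by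
  have h1 : ‖X‖ ≠ 0 := norm_ne_zero_iff.2 hX
  have h2 : ‖Y‖ ≠ 0 := norm_ne_zero_iff.2 hY
  rw [norm_sub_sq_real, norm_sub_sq_real, norm_smul, norm_smul, real_inner_smul_left,
    real_inner_smul_right, Real.norm_eq_abs, Real.norm_eq_abs, mul_pow, mul_pow, sq_abs, sq_abs]
  field_simp
  ring

theorem t_CONF1 : S_CONF1 := by
  rintro n T M ⟨A, a, b, α, hα, h | ⟨ha, h⟩⟩
  · have hT : T = fun x => b + α • A x := funext h
    refine ⟨fun _ => α, univ, subset_univ _, isOpen_univ, ?_, contDiffOn_const, fun _ _ => hα, ?_⟩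
    · rw [hT]
      exact (contDiff_const.add (A.contDiff.const_smul α)).contDiffOn
    · intro x _ y _
      rw [hT]
      have e : (b + α • A x) - (b + α • A y) = α • A (x - y) := by
        rw [map_sub, smul_sub]
        abel
      show ‖(b + α • A x) - (b + α • A y)‖ ^ 2 = α * α * ‖x - y‖ ^ 2
      rw [e, norm_smul, LinearIsometryEquiv.norm_map, Real.norm_eq_abs, mul_pow, sq_abs]
      ring
  · have hT : T = fun x => b + (α / ‖x - a‖ ^ 2) • A (x - a) := funext h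
    have hρ : ContDiffOn ℝ ∞ (fun x : E n => α / ‖x - a‖ ^ 2) {a}ᶜ := by
      refine contDiffOn_const.div ((contDiff_id.sub contDiff_const).norm_sq ℝ).contDiffOn ?_
      intro x hx
      have h1 : x - a ≠ 0 := sub_ne_zero.2 hx
      exact pow_ne_zero 2 (norm_ne_zero_iff.2 h1)
    refine ⟨fun x => α / ‖x - a‖ ^ 2, {a}ᶜ, ?_, isOpen_compl_singleton, ?_, hρ, ?_, ?_⟩
    · intro x hx hxa
      rw [mem_singleton_iff] at hxa
      exact ha (hxa ▸ hx)
    · rw [hT]
      exact contDiffOn_const.add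
        (hρ.smul (A.contDiff.comp (contDiff_id.sub contDiff_const)).contDiffOn)
    · intro x hx
      have h1 : x - a ≠ 0 := sub_ne_zero.2 hx
      have h2 : 0 < ‖x - a‖ := norm_pos_iff.2 h1
      positivity
    · intro x hx y hy
      have h1 : x - a ≠ 0 := sub_ne_zero.2 hx
      have h2 : y - a ≠ 0 := sub_ne_zero.2 hy
      rw [hT]
      show ‖(b + (α / ‖x - a‖ ^ 2) • A (x - a)) - (b + (α / ‖y - a‖ ^ 2) • A (y - a))‖ ^ 2 =
        (α / ‖x - a‖ ^ 2) * (α / ‖y - a‖ ^ 2) * ‖x - y‖ ^ 2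
      have e : (b + (α / ‖x - a‖ ^ 2) • A (x - a)) - (b + (α / ‖y - a‖ ^ 2) • A (y - a)) =
          A ((α / ‖x - a‖ ^ 2) • (x - a) - (α / ‖y - a‖ ^ 2) • (y - a)) := by
        rw [A.map_sub ((α / ‖x - a‖ ^ 2) • (x - a)) ((α / ‖y - a‖ ^ 2) • (y - a)), map_smul, map_smul]
        abel
      rw [e, LinearIsometryEquiv.norm_map, inv_norm α _ _ h1 h2]
      congr 3
      abel

end Pool.Agent.K3h91.MI
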